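import Mathlib

set_option autoImplicit false

/-! # Project FM (helper112): Freiman models of dense subsets of sets of small doubling.
All statements are Props; each task proves one of them. -/

open scoped Pointwise

namespace Pool.Agent.H112R3.FM

universe u

/-- R1: rectification along one generator -/
def R1 : Prop := ∀ (G : Type u) [AddCommGroup G] (H : AddSubgroup G) (s : G) (A : Finset G),
  (∀ a ∈ A, a ∈ H ⊔ AddSubgroup.zmultiples s) →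
  ∃ A' ⊆ A, A.card ≤ 2 * A'.card ∧ ∃ z : G → ℤ, (∀ a ∈ A', a - z a • s ∈ H) ∧
    ∀ a ∈ A', ∀ b ∈ A', ∀ c ∈ A', ∀ d ∈ A', a + b - (c + d) ∈ H → z a + z b = z c + z d

/-- R2: rectification along `k` generators -/
def R2 : Prop := ∀ (k : ℕ) (G : Type u) [AddCommGroup G] (H : AddSubgroup G) (s : Fin k → G)
  (A : Finset G), (∀ a ∈ A, a ∈ H ⊔ AddSubgroup.closure (Set.range s)) →
  ∃ A' ⊆ A, A.card ≤ 2 ^ k * A'.card ∧ ∃ w : G → (Fin k → ℤ),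
    (∀ a ∈ A', a - ∑ i, w a i • s i ∈ H) ∧
    ∀ a ∈ A', ∀ b ∈ A', ∀ c ∈ A', ∀ d ∈ A', a + b - (c + d) ∈ H → w a + w b = w c + w d

/-- R3: a linear form that does not vanish on a finite set of nonzero vectors -/
def R3 : Prop := ∀ (k : ℕ) (F : Finset (Fin k → ℤ)), ∃ c : Fin k → ℤ, ∀ z ∈ F, z ≠ 0 →
  ∑ i, c i * z i ≠ 0

/-- R4: Ruzsa's modelling trick -/
def R4 : Prop := ∀ (G : Type u) (A : Finset G) (n : G → ℤ) (D : Finset ℤ),
  (∀ a ∈ A, ∀ b ∈ A, ∀ c ∈ A, ∀ d ∈ A, n a + n b - (n c + n d) ≠ 0 →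
    n a + n b - (n c + n d) ∈ D) →
  ∃ A' ⊆ A, A.card ≤ 2 * A'.card ∧ ∃ θ : ℤ → ZMod (2 * D.card + 1),
    ∀ a ∈ A', ∀ b ∈ A', ∀ c ∈ A', ∀ d ∈ A',
      (θ (n a) + θ (n b) = θ (n c) + θ (n d) ↔ n a + n b = n c + n d)

/-- R5: Petridis -/
def R5 : Prop := ∀ (G : Type u) [AddCommGroup G] [DecidableEq G] (A : Finset G) (H : AddSubgroup G)
  (K L : ℝ), A.Nonempty → Finite H → ((A + A).card : ℝ) ≤ K * A.card →
  (((A : Set G) + (H : Set G)).ncard : ℝ) ≤ L * A.card →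
  (((A : Set G) + (A : Set G) + (H : Set G)).ncard : ℝ) ≤ K ^ 2 * L * A.card

/-- R6: the number of differences -/
def R6 : Prop := ∀ (G : Type u) [AddCommGroup G] (A : Finset G) (H : AddSubgroup G) (n : G → ℤ),
  A.Nonempty → Finite H →
  (∀ a ∈ A, ∀ b ∈ A, ∀ c ∈ A, ∀ d ∈ A, (n a + n b = n c + n d ↔ a + b - (c + d) ∈ H)) →
  ∃ D : Finset ℤ, (∀ a ∈ A, ∀ b ∈ A, ∀ c ∈ A, ∀ d ∈ A, n a + n b - (n c + n d) ∈ D) ∧
    (D.card : ℝ) * Nat.card H * (A.card : ℝ) ^ 3 ≤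
      (((A : Set G) + (A : Set G) + (H : Set G)).ncard : ℝ) ^ 4

/-- R7: the model -/
def R7 : Prop := ∀ (G : Type u) [AddCommGroup G] [DecidableEq G] (A A₁ : Finset G)
  (H : AddSubgroup G) (k : ℕ) (s : Fin k → G) (x : G) (K L τ : ℝ),
  A₁.Nonempty → Finite H → A₁ ⊆ A → ((A + A).card : ℝ) ≤ K * A.card →
  (((A : Set G) + (H : Set G)).ncard : ℝ) ≤ L * A.card → (A.card : ℝ) ≤ τ * A₁.card →
  (∀ a ∈ A₁, a - x ∈ H ⊔ AddSubgroup.closure (Set.range s)) →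
  ∃ A' ⊆ A₁, A₁.card ≤ 2 ^ (k + 1) * A'.card ∧ ∃ (N : ℕ) (f : G → H × ZMod N), 0 < N ∧
    (N : ℝ) * Nat.card H ≤ 3 * (K ^ 2 * L * τ) ^ 4 * 16 ^ (k + 1) * A'.card ∧
    IsAddFreimanIso 2 (A' : Set G) (f '' (A' : Set G)) f

/-- R8: small sumset with the subgroup, from one dense piece -/
def R8 : Prop := ∀ (G : Type u) [AddCommGroup G] [DecidableEq G] (A A₁ : Finset G)
  (H : AddSubgroup G) (K τ : ℝ), A₁.Nonempty → Finite H → A₁ ⊆ A →
  ((A + A).card : ℝ) ≤ K * A.card → (A.card : ℝ) ≤ τ * A₁.card →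
  (((A₁ : Set G) + (H : Set G)).ncard : ℝ) ≤ A.card →
  (((A : Set G) + (H : Set G)).ncard : ℝ) ≤ K * τ * A.card

/-- R9: near-polynomial models in all abelian groups -/
def R9 : Prop := ∀ (G : Type u) [AddCommGroup G] [DecidableEq G] (A : Finset G) (K : ℝ),
  A.Nonempty → ((A + A).card : ℝ) ≤ K * A.card →
  ∃ A' ⊆ A, (A.card : ℝ) ≤ (2 * K) ^ (200000 * (1 + Real.log (1 + Real.log (2 * K)))) * A'.card ∧
    ∃ (M : Type u) (_ : AddCommGroup M) (_ : Fintype M),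
      (Fintype.card M : ℝ) ≤
        (2 * K) ^ (200000 * (1 + Real.log (1 + Real.log (2 * K)))) * A'.card ∧
      ∃ (B : Set M) (f : G → M), IsAddFreimanIso 2 (A' : Set G) B f

/-- R10: polynomial models in groups without odd torsion -/
def R10 : Prop := ∀ (G : Type u) [AddCommGroup G] [DecidableEq G]
  (_ : ∀ (g : G) (m : ℕ), Odd m → m • g = 0 → g = 0) (A : Finset G) (K : ℝ),
  A.Nonempty → ((A + A).card : ℝ) ≤ K * A.card →
  ∃ A' ⊆ A, (A.card : ℝ) ≤ (2 * K) ^ (10000 : ℕ) * A'.card ∧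
    ∃ (M : Type u) (_ : AddCommGroup M) (_ : Fintype M),
      (Fintype.card M : ℝ) ≤ (2 * K) ^ (10000 : ℕ) * A'.card ∧
      ∃ (B : Set M) (f : G → M), IsAddFreimanIso 2 (A' : Set G) B f

end Pool.Agent.H112R3.FM
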