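import Mathlib
import Pool.Agent.H112R3.FM.Defs

set_option autoImplicit false

open scoped Pointwise

namespace Pool.Agent.H112R3.FM

universe u

namespace R1aux

/-- from membership of the sums to membership of the multiple of the generator -/
theorem comb {G : Type u} [AddCommGroup G] (H : AddSubgroup G) (s : G) (z : G → ℤ)
    {a b c d : G} (ha : a - z a • s ∈ H) (hb : b - z b • s ∈ H) (hc : c - z c • s ∈ H)
    (hd : d - z d • s ∈ H) (h : a + b - (c + d) ∈ H) :
    (z a + z b - (z c + z d)) • s ∈ H := by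
  have h1 : (z a + z b - (z c + z d)) • s = (a + b - (c + d)) - ((a - z a • s) + (b - z b • s)
      - ((c - z c • s) + (d - z d • s))) := by
    rw [sub_zsmul, add_zsmul, add_zsmul]
    abel
  rw [h1]
  exact H.sub_mem h (H.sub_mem (H.add_mem ha hb) (H.add_mem hc hd))

end R1aux

open R1aux in
theorem r1 : R1.{u} := by
  classical
  intro G _ H s A hA
  obtain ⟨M, hM⟩ : ∃ M : AddSubgroup ℤ, M = H.comap (zmultiplesHom G s) := ⟨_, rfl⟩
  have hMm : ∀ z : ℤ, z ∈ M ↔ z • s ∈ H := by
    intro z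
    rw [hM, AddSubgroup.mem_comap, zmultiplesHom_apply]
  obtain ⟨m, hm⟩ := Int.subgroup_cyclic M
  have hmd : ∀ z : ℤ, z • s ∈ H ↔ m ∣ z := by
    intro z
    rw [← hMm, hm, ← AddSubgroup.zmultiples_eq_closure, Int.mem_zmultiples_iff]
  have hz0 : ∀ a : G, ∃ z : ℤ, a ∈ A → a - z • s ∈ H := by
    intro a
    by_cases ha : a ∈ A
    · obtain ⟨y, hy, w, hw, hyw⟩ := AddSubgroup.mem_sup.1 (hA a ha)
      obtain ⟨z, rfl⟩ := AddSubgroup.mem_zmultiples_iff.1 hw
      refine ⟨z, fun _ => ?_⟩
      rw [← hyw]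
      simpa using hy
    · exact ⟨0, fun h => absurd h ha⟩
  choose z0 hz0 using hz0
  by_cases hm0 : m = 0
  · refine ⟨A, Finset.Subset.refl _, by omega, z0, hz0, ?_⟩
    intro a ha b hb c hc d hd h
    have h1 := (hmd _).1 (comb H s z0 (hz0 a ha) (hz0 b hb) (hz0 c hc) (hz0 d hd) h)
    rw [hm0, zero_dvd_iff] at h1
    linarith
  · obtain ⟨p, hp⟩ : ∃ p : ℤ, p = |m| := ⟨_, rfl⟩
    have hp0 : 0 < p := by rw [hp]; exact abs_pos.2 hm0
    have hpd : ∀ z : ℤ, z • s ∈ H ↔ p ∣ z := by
      intro z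
      rw [hmd, hp, abs_dvd]
    obtain ⟨z, hz⟩ : ∃ z : G → ℤ, z = fun a => z0 a % p := ⟨_, rfl⟩
    have hzl : ∀ a, 0 ≤ z a := fun a => by rw [hz]; exact Int.emod_nonneg _ hp0.ne'
    have hzu : ∀ a, z a < p := fun a => by rw [hz]; exact Int.emod_lt_of_pos _ hp0
    have hzH : ∀ a ∈ A, a - z a • s ∈ H := by
      intro a ha
      have h1 : (z0 a - z a) • s ∈ H := by
        rw [hpd, hz]
        exact Int.dvd_self_sub_emod
      have h2 : a - z a • s = (a - z0 a • s) + (z0 a - z a) • s := by
        rw [sub_zsmul]; abel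
      rw [h2]
      exact H.add_mem (hz0 a ha) h1
    have core : ∀ A' : Finset G, A' ⊆ A →
        (∀ a ∈ A', ∀ b ∈ A', ∀ c ∈ A', ∀ d ∈ A', |z a + z b - (z c + z d)| < p) →
        ∀ a ∈ A', ∀ b ∈ A', ∀ c ∈ A', ∀ d ∈ A', a + b - (c + d) ∈ H → z a + z b = z c + z d := by
      intro A' hA' hlt a ha b hb c hc d hd h
      have h1 := (hpd _).1 (comb H s z (hzH a (hA' ha)) (hzH b (hA' hb)) (hzH c (hA' hc))
        (hzH d (hA' hd)) h)
      have h2 := Int.eq_zero_of_abs_lt_dvd h1 (hlt a ha b hb c hc d hd)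
      linarith
    have hcard := Finset.card_filter_add_card_filter_not (s := A) (fun a => 2 * z a < p)
    by_cases hc : (A.filter (fun a => ¬ 2 * z a < p)).card ≤ (A.filter (fun a => 2 * z a < p)).card
    · refine ⟨A.filter (fun a => 2 * z a < p), Finset.filter_subset _ _, by omega, z,
        fun a ha => hzH a (Finset.filter_subset _ _ ha), ?_⟩
      refine core _ (Finset.filter_subset _ _) ?_
      intro a ha b hb c hc d hd
      have h1 := (Finset.mem_filter.1 ha).2
      have h2 := (Finset.mem_filter.1 hb).2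
      have h3 := (Finset.mem_filter.1 hc).2
      have h4 := (Finset.mem_filter.1 hd).2
      have h5 := hzl a
      have h6 := hzl b
      have h7 := hzl c
      have h8 := hzl d
      rw [abs_lt]
      constructor <;> omega
    · refine ⟨A.filter (fun a => ¬ 2 * z a < p), Finset.filter_subset _ _, by omega, z,
        fun a ha => hzH a (Finset.filter_subset _ _ ha), ?_⟩
      refine core _ (Finset.filter_subset _ _) ?_
      intro a ha b hb c hc d hd
      have h1 := (Finset.mem_filter.1 ha).2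
      have h2 := (Finset.mem_filter.1 hb).2
      have h3 := (Finset.mem_filter.1 hc).2
      have h4 := (Finset.mem_filter.1 hd).2
      have h5 := hzu a
      have h6 := hzu b
      have h7 := hzu c
      have h8 := hzu d
      rw [abs_lt]
      constructor <;> omega

end Pool.Agent.H112R3.FM
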