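import Mathlib
import Pool.Agent.H112R3.FM.Defs
import Pool.Agent.Results.MP_dd2a7c_co.WeakMarton

set_option autoImplicit false

open scoped Pointwise

namespace Pool.Agent.H112R3.FM

universe u

namespace R10aux

theorem one_le {G : Type u} [AddCommGroup G] [DecidableEq G] (A : Finset G) (K : ℝ)
    (hA : A.Nonempty) (hK : ((A + A).card : ℝ) ≤ K * A.card) : 1 ≤ K := by
  have h1 : A.card ≤ (A + A).card := Finset.card_le_card_add_left hA
  have h2 : (0 : ℝ) < A.card := by exact_mod_cast hA.card_pos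
  have h3 : (A.card : ℝ) ≤ K * A.card := le_trans (by exact_mod_cast h1) hK
  by_contra hcon
  push Not at hcon
  nlinarith

theorem pig {G : Type u} (A T : Finset G) (p : G → G → Prop) [∀ t, DecidablePred (p t)]
    (hA : A.Nonempty) (h : ∀ a ∈ A, ∃ t ∈ T, p t a) :
    ∃ t ∈ T, A.card ≤ T.card * (A.filter (p t)).card := by
  classical
  by_contra hcon
  push Not at hcon
  obtain ⟨a0, ha0⟩ := hA
  obtain ⟨t0, ht0, _⟩ := h a0 ha0
  have h1 : A.card ≤ ∑ t ∈ T, (A.filter (p t)).card := by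
    refine le_trans (Finset.card_le_card ?_) Finset.card_biUnion_le
    intro a ha
    obtain ⟨t, ht, hp⟩ := h a ha
    exact Finset.mem_biUnion.2 ⟨t, ht, Finset.mem_filter.2 ⟨ha, hp⟩⟩
  have h2 : ∑ t ∈ T, T.card * (A.filter (p t)).card < ∑ _t ∈ T, A.card :=
    Finset.sum_lt_sum_of_nonempty ⟨t0, ht0⟩ fun t ht => hcon t ht
  rw [← Finset.mul_sum, Finset.sum_const, smul_eq_mul] at h2
  have h3 := Nat.mul_le_mul_left T.card h1
  omega

theorem pow16 (K : ℝ) (hK : 1 ≤ K) (k : ℕ) (hk : (k : ℝ) ≤ 480 * Real.log K + 1) :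
    (16 : ℝ) ^ (k + 1) ≤ 256 * K ^ 1440 := by
  have hK0 : 0 < K := by linarith
  have hl : 0 ≤ Real.log K := Real.log_nonneg hK
  have h16 : Real.log 16 ≤ 3 := by
    have e : (16 : ℝ) = 2 ^ 4 := by norm_num
    rw [e, Real.log_pow]
    have := Real.log_two_lt_d9
    push_cast
    linarith
  have h16p : 0 < Real.log 16 := Real.log_pos (by norm_num)
  rw [← Real.log_le_log_iff (by positivity) (by positivity), Real.log_pow,
    Real.log_mul (by norm_num) (by positivity), Real.log_pow]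
  have e256 : Real.log 256 = 2 * Real.log 16 := by
    rw [show (256 : ℝ) = 16 ^ 2 by norm_num, Real.log_pow]
    push_cast
    ring
  rw [e256]
  push_cast
  have h1 : ((k : ℝ) + 1) * Real.log 16 ≤ (480 * Real.log K + 2) * Real.log 16 :=
    mul_le_mul_of_nonneg_right (by linarith) h16p.le
  have h2 : Real.log K * Real.log 16 ≤ Real.log K * 3 := mul_le_mul_of_nonneg_left h16 hl
  nlinarith

theorem big (K c : ℝ) (hK : 1 ≤ K) (m : ℕ) (hc : c ≤ 2 ^ 14) (hm : 14 ≤ m) (hm2 : m ≤ 10000) :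
    c * K ^ m ≤ (2 * K) ^ (10000 : ℕ) := by
  have h1 : c * K ^ m ≤ 2 ^ m * K ^ m := by
    refine mul_le_mul_of_nonneg_right (hc.trans ?_) (by positivity)
    exact pow_le_pow_right₀ (by norm_num) hm
  rw [← mul_pow] at h1
  exact h1.trans (pow_le_pow_right₀ (by linarith) hm2)

end R10aux

open R10aux in
theorem r10 (h7 : R7.{u}) : R10.{u} := by
  intro G _ _ ht A K hA hK
  classical
  obtain ⟨P, S, T, hPf, hPc, hPA, hS, hTA, hTc, hcov⟩ :=
    Pool.Agent.Results.MP_dd2a7c_co.WeakMarton.result K A hA hK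
  have hK1 : 1 ≤ K := one_le A K hA hK
  have hcov' : ∀ a ∈ A, ∃ t ∈ T, a - t ∈ P ⊔ AddSubgroup.closure (S : Set G) := by
    intro a ha
    obtain ⟨t, h1, o, ⟨m, hm, ho⟩, h2⟩ := hcov a ha
    have h3 := ht o m hm ho
    rw [h3, sub_zero] at h2
    exact ⟨t, h1, h2⟩
  obtain ⟨t, htT, hcard⟩ := pig A T
    (fun t a => a - t ∈ P ⊔ AddSubgroup.closure (S : Set G)) hA hcov'
  set A₁ : Finset G := A.filter (fun a => a - t ∈ P ⊔ AddSubgroup.closure (S : Set G)) with hA₁
  have hA0 : (0 : ℝ) < A.card := by exact_mod_cast hA.card_pos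
  have hτ : (A.card : ℝ) ≤ K ^ 185 * A₁.card := by
    have h1 : (A.card : ℝ) ≤ (T.card : ℝ) * A₁.card := by exact_mod_cast hcard
    exact h1.trans (mul_le_mul_of_nonneg_right hTc (Nat.cast_nonneg _))
  have hA₁n : A₁.Nonempty := by
    rw [Finset.nonempty_iff_ne_empty]
    intro h0
    rw [h0, Finset.card_empty, Nat.cast_zero, mul_zero] at hτ
    linarith
  have hrange : Set.range (fun i : Fin S.card => ((S.equivFin.symm i : S) : G)) = (S : Set G) := by
    ext g
    constructor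
    · rintro ⟨i, rfl⟩
      exact (S.equivFin.symm i).2
    · intro hg
      exact ⟨S.equivFin ⟨g, hg⟩, by simp⟩
  obtain ⟨A', hA', hc', N, f, hN, hNle, hiso⟩ := h7 G A A₁ P S.card
    (fun i => ((S.equivFin.symm i : S) : G)) t K (2 * K ^ 370) (K ^ 185) hA₁n hPf
    (Finset.filter_subset _ _) hK hPA hτ (by
      intro a ha
      rw [hrange]
      exact (Finset.mem_filter.1 ha).2)
  have h16 := pow16 K hK1 S.card hS
  have hK0 : 0 < K := by linarith
  refine ⟨A', hA'.trans (Finset.filter_subset _ _), ?_, ?_⟩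
  · have h1 : (A₁.card : ℝ) ≤ 2 ^ (S.card + 1) * A'.card := by exact_mod_cast hc'
    have h2 : (2 : ℝ) ^ (S.card + 1) ≤ 16 ^ (S.card + 1) :=
      pow_le_pow_left₀ (by norm_num) (by norm_num) _
    have h3 : (A.card : ℝ) ≤ K ^ 185 * (256 * K ^ 1440 * A'.card) := by
      refine hτ.trans (mul_le_mul_of_nonneg_left (h1.trans ?_) (by positivity))
      exact mul_le_mul_of_nonneg_right (h2.trans h16) (Nat.cast_nonneg _)
    have h4 : K ^ 185 * (256 * K ^ 1440 * (A'.card : ℝ)) = 256 * K ^ 1625 * A'.card := by ring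
    rw [h4] at h3
    exact h3.trans (mul_le_mul_of_nonneg_right
      (big K 256 hK1 1625 (by norm_num) (by norm_num) (by norm_num)) (Nat.cast_nonneg _))
  · have : NeZero N := ⟨hN.ne'⟩
    have hfin : Finite P := hPf
    let fP : Fintype P := Fintype.ofFinite P
    refine ⟨P × ZMod N, inferInstance, inferInstance, ?_, f '' (A' : Set G), f, hiso⟩
    rw [Fintype.card_prod, ZMod.card, ← Nat.card_eq_fintype_card, Nat.cast_mul, mul_comm]
    refine hNle.trans ?_
    have h5 : 3 * (K ^ 2 * (2 * K ^ 370) * K ^ 185) ^ 4 * 16 ^ (S.card + 1) * (A'.card : ℝ) ≤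
        3 * (K ^ 2 * (2 * K ^ 370) * K ^ 185) ^ 4 * (256 * K ^ 1440) * (A'.card : ℝ) := by
      refine mul_le_mul_of_nonneg_right ?_ (Nat.cast_nonneg _)
      exact mul_le_mul_of_nonneg_left h16 (by positivity)
    refine h5.trans (mul_le_mul_of_nonneg_right ?_ (Nat.cast_nonneg _))
    have h6 : 3 * (K ^ 2 * (2 * K ^ 370) * K ^ 185) ^ 4 * (256 * K ^ 1440) =
        12288 * K ^ 3668 := by ring
    rw [h6]
    exact big K 12288 hK1 3668 (by norm_num) (by norm_num) (by norm_num)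

end Pool.Agent.H112R3.FM
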