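import Mathlib
import Pool.Agent.H112R3.FM.Defs

/-! Project FM (helper112), task R2. -/

set_option autoImplicit false

open scoped Pointwise

namespace Pool.Agent.H112R3.FM

universe u

namespace R2aux

theorem lift_mem {G : Type u} [AddCommGroup G] (H : AddSubgroup G) {k : ℕ} (s : Fin k → G)
    {g : G} (hg : g ∈ H ⊔ AddSubgroup.closure (Set.range s)) (n : ℤ) :
    ((g, n) : G × ℤ) ∈ H.prod (⊤ : AddSubgroup ℤ) ⊔
      AddSubgroup.closure (Set.range fun i => ((s i, 0) : G × ℤ)) := by
  have key : H ⊔ AddSubgroup.closure (Set.range s) ≤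
      (H.prod (⊤ : AddSubgroup ℤ) ⊔
        AddSubgroup.closure (Set.range fun i => ((s i, 0) : G × ℤ))).comap
        (AddMonoidHom.inl G ℤ) := by
    refine sup_le ?_ ((AddSubgroup.closure_le _).2 ?_)
    · intro g hg
      rw [AddSubgroup.mem_comap]
      exact AddSubgroup.mem_sup_left (AddSubgroup.mem_prod.2 ⟨hg, AddSubgroup.mem_top _⟩)
    · rintro _ ⟨i, rfl⟩
      rw [SetLike.mem_coe, AddSubgroup.mem_comap]
      exact AddSubgroup.mem_sup_right (AddSubgroup.subset_closure ⟨i, rfl⟩)
  have h1 := key hg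
  rw [AddSubgroup.mem_comap] at h1
  have h2 : ((0, n) : G × ℤ) ∈ H.prod (⊤ : AddSubgroup ℤ) ⊔
      AddSubgroup.closure (Set.range fun i => ((s i, 0) : G × ℤ)) :=
    AddSubgroup.mem_sup_left (AddSubgroup.mem_prod.2 ⟨H.zero_mem, AddSubgroup.mem_top _⟩)
  have h3 := AddSubgroup.add_mem _ h1 h2
  have e : (AddMonoidHom.inl G ℤ) g + ((0, n) : G × ℤ) = (g, n) := by
    simp
  rwa [e] at h3

end R2aux

theorem r2 (h1 : R1.{u}) : R2.{u} := by
  classical
  intro k
  induction k with
  | zero =>
    intro G _ H s A hA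
    refine ⟨A, Finset.Subset.refl _, by simp, fun _ _ => 0, fun a ha => ?_, fun _ _ _ _ _ _ _ _ _ =>
      Subsingleton.elim _ _⟩
    have h2 := hA a ha
    have h3 : Set.range s = ∅ := Set.range_eq_empty s
    rw [h3, AddSubgroup.closure_empty, sup_bot_eq] at h2
    simpa using h2
  | succ k ih =>
    intro G _ H s A hA
    set Hk : AddSubgroup G := H ⊔ AddSubgroup.closure (Set.range fun i : Fin k => s i.castSucc)
      with hHk
    have hle : H ⊔ AddSubgroup.closure (Set.range s) ≤
        Hk ⊔ AddSubgroup.zmultiples (s (Fin.last k)) := by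
      refine sup_le (le_sup_left.trans le_sup_left) ((AddSubgroup.closure_le _).2 ?_)
      rintro _ ⟨i, rfl⟩
      refine Fin.lastCases ?_ (fun j => ?_) i
      · exact AddSubgroup.mem_sup_right (AddSubgroup.mem_zmultiples _)
      · exact AddSubgroup.mem_sup_left (AddSubgroup.mem_sup_right
          (AddSubgroup.subset_closure ⟨j, rfl⟩))
    obtain ⟨A1, hA1, hc1, z, hz1, hz2⟩ := h1 G Hk (s (Fin.last k)) A (fun a ha => hle (hA a ha))
    set φ : G → G × ℤ := fun a => (a - z a • s (Fin.last k), z a) with hφ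
    have hinj : Function.Injective φ := by
      intro a b hab
      simp only [hφ, Prod.mk.injEq] at hab
      obtain ⟨h2, h3⟩ := hab
      rw [h3] at h2
      exact sub_left_injective h2
    obtain ⟨A3, hA3, hc3, w, hw1, hw2⟩ := ih (G × ℤ) (H.prod (⊤ : AddSubgroup ℤ))
      (fun i => ((s i.castSucc, 0) : G × ℤ)) (A1.image φ) (by
        intro x hx
        obtain ⟨a, ha, rfl⟩ := Finset.mem_image.1 hx
        exact R2aux.lift_mem H (fun i : Fin k => s i.castSucc) (hz1 a ha) (z a))
    have himg : (A1.filter fun a => φ a ∈ A3).image φ = A3 := by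
      ext x
      rw [Finset.mem_image]
      constructor
      · rintro ⟨a, ha, rfl⟩
        exact (Finset.mem_filter.1 ha).2
      · intro hx
        obtain ⟨a, ha, rfl⟩ := Finset.mem_image.1 (hA3 hx)
        exact ⟨a, Finset.mem_filter.2 ⟨ha, hx⟩, rfl⟩
    have hcard : (A1.filter fun a => φ a ∈ A3).card = A3.card := by
      rw [← Finset.card_image_of_injective _ hinj, himg]
    refine ⟨A1.filter fun a => φ a ∈ A3, (Finset.filter_subset _ _).trans hA1, ?_,
      fun a => Fin.snoc (w (φ a)) (z a), ?_, ?_⟩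
    · rw [hcard]
      rw [Finset.card_image_of_injective _ hinj] at hc3
      calc A.card ≤ 2 * A1.card := hc1
        _ ≤ 2 * (2 ^ k * A3.card) := Nat.mul_le_mul_left _ hc3
        _ = 2 ^ (k + 1) * A3.card := by ring
    · intro a ha
      obtain ⟨ha1, ha3⟩ := Finset.mem_filter.1 ha
      have h2 := (AddSubgroup.mem_prod.1 (hw1 (φ a) ha3)).1
      rw [Prod.fst_sub, Prod.fst_sum] at h2
      simp only [Prod.smul_fst] at h2
      rw [Fin.sum_univ_castSucc]
      simp only [Fin.snoc_castSucc, Fin.snoc_last]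
      have e : a - (∑ i : Fin k, w (φ a) i • s i.castSucc + z a • s (Fin.last k)) =
          (φ a).1 - ∑ i : Fin k, w (φ a) i • s i.castSucc := by
        simp only [hφ]; abel
      rw [e]
      exact h2
    · intro a ha b hb c hc d hd habcd
      obtain ⟨ha1, ha3⟩ := Finset.mem_filter.1 ha
      obtain ⟨hb1, hb3⟩ := Finset.mem_filter.1 hb
      obtain ⟨hc1', hc3'⟩ := Finset.mem_filter.1 hc
      obtain ⟨hd1, hd3⟩ := Finset.mem_filter.1 hd
      have hzz : z a + z b = z c + z d :=
        hz2 a ha1 b hb1 c hc1' d hd1 (AddSubgroup.mem_sup_left habcd)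
      have hmem : φ a + φ b - (φ c + φ d) ∈ H.prod (⊤ : AddSubgroup ℤ) := by
        refine AddSubgroup.mem_prod.2 ⟨?_, AddSubgroup.mem_top _⟩
        have e : (φ a + φ b - (φ c + φ d)).1 = a + b - (c + d) := by
          simp only [hφ, Prod.fst_sub, Prod.fst_add]
          have h3 : z a • s (Fin.last k) + z b • s (Fin.last k) =
              z c • s (Fin.last k) + z d • s (Fin.last k) := by
            rw [← add_smul, ← add_smul, hzz]
          calc a - z a • s (Fin.last k) + (b - z b • s (Fin.last k)) -
              (c - z c • s (Fin.last k) + (d - z d • s (Fin.last k))) =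
              a + b - (c + d) - (z a • s (Fin.last k) + z b • s (Fin.last k)) +
                (z c • s (Fin.last k) + z d • s (Fin.last k)) := by abel
            _ = a + b - (c + d) := by rw [h3]; abel
        rw [e]
        exact habcd
      have hww := hw2 _ ha3 _ hb3 _ hc3' _ hd3 hmem
      funext i
      refine Fin.lastCases ?_ (fun j => ?_) i
      · simpa using hzz
      · have := congrFun hww j
        simpa using this

end Pool.Agent.H112R3.FM
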