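import Mathlib
import Pool.Agent.H112R3.FM.Defs

set_option autoImplicit false

open scoped Pointwise

namespace Pool.Agent.H112R3.FM

theorem r3 : R3 := by
  intro k
  induction k with
  | zero => intro F; exact ⟨0, fun z _ hz => absurd (Subsingleton.elim z 0) hz⟩
  | succ k ih =>
    intro F
    classical
    obtain ⟨c, hc⟩ := ih (F.image Fin.tail)
    obtain ⟨S, hS⟩ : ∃ S : (Fin (k+1) → ℤ) → ℤ, S = fun z => ∑ i, c i * z i.succ := ⟨_, rfl⟩
    obtain ⟨M, hM⟩ : ∃ M : ℤ, M = ∑ z ∈ F, |S z| := ⟨_, rfl⟩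
    refine ⟨Fin.cons (1 + M) c, ?_⟩
    intro z hz hne
    rw [Fin.sum_univ_succ]
    simp only [Fin.cons_zero, Fin.cons_succ]
    by_cases h0 : z 0 = 0
    · rw [h0, mul_zero, zero_add]
      refine hc (Fin.tail z) (Finset.mem_image_of_mem _ hz) ?_
      intro h
      apply hne
      funext i
      exact Fin.cases h0 (fun j => congrFun h j) i
    · have h1 : |S z| ≤ M := by
        rw [hM]
        exact Finset.single_le_sum (f := fun z => |S z|) (fun _ _ => abs_nonneg _) hz
      intro h
      have hSz : S z = ∑ i, c i * z i.succ := by rw [hS]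
      rw [← hSz] at h
      have h2 : (1 + M) * z 0 = - S z := by linarith
      have h3 : |(1 + M) * z 0| = |S z| := by rw [h2, abs_neg]
      rw [abs_mul] at h3
      have h4 : 1 ≤ |z 0| := Int.one_le_abs h0
      have h5 : 1 + |S z| ≤ |1 + M| := le_trans (by linarith) (le_abs_self _)
      nlinarith [abs_nonneg (S z)]

end Pool.Agent.H112R3.FM
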