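import Mathlib
import Pool.Agent.H112R3.FM.Defs

set_option autoImplicit false

open scoped Pointwise

namespace Pool.Agent.H112R3.FM

universe u

namespace R4aux

/-- a good multiplier -/
theorem good (D : Finset ℤ) (p : ℕ) (hp : p.Prime) (hpD : ∀ d ∈ D, |d| < (p : ℤ)) :
    ∃ l : ℕ, ∀ d ∈ D, d ≠ 0 → ∀ e : ℤ, |e| < (p : ℤ) → ((2 * D.card + 1 : ℕ) : ℤ) ∣ e →
      (p : ℤ) ∣ e - l * d → False := by
  classical
  by_contra hcon
  push Not at hcon
  obtain ⟨N, hN⟩ : ∃ N : ℕ, N = 2 * D.card + 1 := ⟨_, rfl⟩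
  rw [← hN] at hcon
  have hN0 : 0 < N := by omega
  choose d hd hd0 e he heN hep' using hcon
  have hep : ∀ l : ℕ, (p : ℤ) ∣ e l - l * d l := fun l => (hep' l).1
  obtain ⟨m, hm⟩ : ∃ m : ℕ, m = (p - 1) / N := ⟨_, rfl⟩
  have hp2 := hp.two_le
  have hpZ : Prime (p : ℤ) := Nat.prime_iff_prime_int.1 hp
  have hmN : N * m ≤ p - 1 := by rw [hm]; exact Nat.mul_div_le _ _
  have hnd : ∀ l, ¬ (p : ℤ) ∣ d l := by
    intro l h
    have h1 := Int.le_of_dvd (abs_pos.2 (hd0 l)) ((dvd_abs _ _).2 h)
    have h2 := hpD _ (hd l)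
    omega
  have key : (Finset.Icc 1 (p - 1)).card ≤
      (D ×ˢ (Finset.Icc (-(m : ℤ)) m).erase 0).card := by
    refine Finset.card_le_card_of_injOn (fun l => (d l, e l / N)) ?_ ?_
    · intro l hl
      have hl' := Finset.mem_Icc.1 (Finset.mem_coe.1 hl)
      obtain ⟨c, hc⟩ := heN l
      have hNz : (0 : ℤ) < N := by exact_mod_cast hN0
      have h1 : e l / (N : ℤ) = c := by rw [hc]; exact Int.mul_ediv_cancel_left _ hNz.ne'
      simp only [Finset.coe_product, Set.mem_prod, Finset.mem_coe, Finset.mem_erase,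
        Finset.mem_Icc]
      rw [h1]
      have h2 : |c| * N < p := by
        have := he l
        rw [hc, abs_mul, abs_of_pos hNz, mul_comm] at this
        exact this
      have h3 : |c| ≤ m := by
        have h4 : c.natAbs * N ≤ p - 1 := by
          have h5 : (c.natAbs : ℤ) * N < p := by rw [Int.natCast_natAbs]; exact h2
          have h6 : c.natAbs * N < p := by exact_mod_cast h5
          omega
        have h5 : c.natAbs ≤ m := by rw [hm]; exact (Nat.le_div_iff_mul_le hN0).2 h4
        rw [Int.abs_eq_natAbs]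
        exact_mod_cast h5
      refine ⟨hd l, ?_, (abs_le.1 h3).1, (abs_le.1 h3).2⟩
      intro hc0
      have h4 := hep l
      rw [hc, hc0, mul_zero, zero_sub, dvd_neg] at h4
      rcases hpZ.dvd_or_dvd h4 with h5 | h5
      · have h6 : p ∣ l := by exact_mod_cast h5
        have h7 := Nat.le_of_dvd (by omega) h6
        omega
      · exact hnd l h5
    · intro l hl l' hl' heq
      have hl1 := Finset.mem_Icc.1 (Finset.mem_coe.1 hl)
      have hl2 := Finset.mem_Icc.1 (Finset.mem_coe.1 hl')
      simp only [Prod.mk.injEq] at heq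
      obtain ⟨h1, h2⟩ := heq
      have h3 : e l = e l' := by
        rw [← Int.mul_ediv_cancel' (heN l), ← Int.mul_ediv_cancel' (heN l'), h2]
      have h4 : (p : ℤ) ∣ ((l' : ℤ) - l) * d l := by
        have h5 := dvd_sub (hep l) (hep l')
        rw [← h3, ← h1] at h5
        have h6 : e l - (l : ℤ) * d l - (e l - (l' : ℤ) * d l) = ((l' : ℤ) - l) * d l := by ring
        rwa [h6] at h5
      rcases hpZ.dvd_or_dvd h4 with h5 | h5
      · by_contra hne
        have h6 : ((l' : ℤ) - l) ≠ 0 := by
          intro h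
          apply hne
          have : (l' : ℤ) = l := by linarith
          exact_mod_cast this.symm
        have h7 := Int.le_of_dvd (abs_pos.2 h6) ((dvd_abs _ _).2 h5)
        have h8 : |(l' : ℤ) - l| < p := by
          rw [abs_lt]
          constructor <;> omega
        omega
      · exact absurd h5 (hnd l)
  rw [Nat.card_Icc, Finset.card_product, Finset.card_erase_of_mem (by simp), Int.card_Icc] at key
  have h1 : ((m : ℤ) + 1 - -(m : ℤ)).toNat - 1 = 2 * m := by omega
  rw [h1] at key
  have h2 : D.card * (2 * m) + m = N * m := by rw [hN]; ring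
  have hm0 : m = 0 := by omega
  rw [hm0, mul_zero, mul_zero] at key
  omega

end R4aux

theorem r4 : R4.{u} := by
  classical
  intro G A n D hD
  obtain ⟨p, hpge, hp⟩ := Nat.exists_infinite_primes (∑ d ∈ D, d.natAbs + 1)
  have hpD : ∀ d ∈ D, |d| < (p : ℤ) := by
    intro d hd
    have h1 : d.natAbs ≤ ∑ d ∈ D, d.natAbs :=
      Finset.single_le_sum (f := fun d : ℤ => d.natAbs) (fun _ _ => Nat.zero_le _) hd
    rw [Int.abs_eq_natAbs]
    omega
  obtain ⟨l, hl⟩ := R4aux.good D p hp hpD
  have hp0 : (0 : ℤ) < p := by exact_mod_cast hp.pos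
  let r : ℤ → ℤ := fun x => (l * x) % p
  have hr0 : ∀ x, 0 ≤ r x := fun x => Int.emod_nonneg _ hp0.ne'
  have hrp : ∀ x, r x < p := fun x => Int.emod_lt_of_pos _ hp0
  have hrd : ∀ x, (p : ℤ) ∣ r x - l * x := by
    intro x
    have h1 : (p : ℤ) ∣ l * x - (l * x) % p := Int.dvd_self_sub_emod
    have h2 := (dvd_neg).2 h1
    rwa [neg_sub] at h2
  -- the core
  have core : ∀ A' : Finset G, A' ⊆ A →
      (∀ a ∈ A', ∀ b ∈ A', ∀ c ∈ A', ∀ d ∈ A',
        |r (n a) + r (n b) - (r (n c) + r (n d))| < p) →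
      ∀ a ∈ A', ∀ b ∈ A', ∀ c ∈ A', ∀ d ∈ A',
        (((r (n a) : ℤ) : ZMod (2 * D.card + 1)) + ((r (n b) : ℤ) : ZMod (2 * D.card + 1)) =
          ((r (n c) : ℤ) : ZMod (2 * D.card + 1)) + ((r (n d) : ℤ) : ZMod (2 * D.card + 1)) ↔
          n a + n b = n c + n d) := by
    intro A' hA' habs a ha b hb c hc d hd
    have hlt := habs a ha b hb c hc d hd
    have hdv : (p : ℤ) ∣ (r (n a) + r (n b) - (r (n c) + r (n d))) -
        l * (n a + n b - (n c + n d)) := by
      have h1 := dvd_sub (dvd_add (hrd (n a)) (hrd (n b))) (dvd_add (hrd (n c)) (hrd (n d)))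
      have h2 : r (n a) - l * n a + (r (n b) - l * n b) -
          (r (n c) - l * n c + (r (n d) - l * n d)) =
          (r (n a) + r (n b) - (r (n c) + r (n d))) - l * (n a + n b - (n c + n d)) := by ring
      rwa [h2] at h1
    constructor
    · intro h
      by_contra hne
      have hne' : n a + n b - (n c + n d) ≠ 0 := fun h => hne (by linarith)
      have hmem := hD a (hA' ha) b (hA' hb) c (hA' hc) d (hA' hd) hne'
      refine hl _ hmem hne' _ hlt ?_ hdv
      have h1 : (((r (n a) + r (n b) - (r (n c) + r (n d)) : ℤ)) : ZMod (2 * D.card + 1)) = 0 := by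
        push_cast
        rw [h, sub_self]
      exact (ZMod.intCast_zmod_eq_zero_iff_dvd _ _).1 h1
    · intro h
      have h1 : n a + n b - (n c + n d) = 0 := by linarith
      rw [h1, mul_zero, sub_zero] at hdv
      have h2 : r (n a) + r (n b) - (r (n c) + r (n d)) = 0 := by
        by_contra h3
        have h4 := Int.le_of_dvd (abs_pos.2 h3) ((dvd_abs _ _).2 hdv)
        omega
      have h3 : r (n a) + r (n b) = r (n c) + r (n d) := by linarith
      exact_mod_cast congrArg (fun z : ℤ => (z : ZMod (2 * D.card + 1))) h3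
  have hcard := Finset.card_filter_add_card_filter_not (s := A) (fun a => 2 * r (n a) < p)
  by_cases hc : (A.filter (fun a => ¬ 2 * r (n a) < p)).card ≤
      (A.filter (fun a => 2 * r (n a) < p)).card
  · refine ⟨A.filter (fun a => 2 * r (n a) < p), Finset.filter_subset _ _, by omega,
      fun x => ((r x : ℤ) : ZMod (2 * D.card + 1)), ?_⟩
    refine core _ (Finset.filter_subset _ _) ?_
    intro a ha b hb c hc d hd
    have h1 := (Finset.mem_filter.1 ha).2
    have h2 := (Finset.mem_filter.1 hb).2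
    have h3 := (Finset.mem_filter.1 hc).2
    have h4 := (Finset.mem_filter.1 hd).2
    have g1 := hr0 (n a)
    have g2 := hr0 (n b)
    have g3 := hr0 (n c)
    have g4 := hr0 (n d)
    rw [abs_lt]
    constructor <;> linarith
  · refine ⟨A.filter (fun a => ¬ 2 * r (n a) < p), Finset.filter_subset _ _, by omega,
      fun x => ((r x : ℤ) : ZMod (2 * D.card + 1)), ?_⟩
    refine core _ (Finset.filter_subset _ _) ?_
    intro a ha b hb c hc d hd
    have h1 := not_lt.1 (Finset.mem_filter.1 ha).2
    have h2 := not_lt.1 (Finset.mem_filter.1 hb).2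
    have h3 := not_lt.1 (Finset.mem_filter.1 hc).2
    have h4 := not_lt.1 (Finset.mem_filter.1 hd).2
    have g1 := hrp (n a)
    have g2 := hrp (n b)
    have g3 := hrp (n c)
    have g4 := hrp (n d)
    rw [abs_lt]
    constructor <;> linarith

end Pool.Agent.H112R3.FM
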