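import Mathlib
import Pool.Agent.H112R3.FM.Defs

set_option autoImplicit false

open scoped Pointwise

namespace Pool.Agent.H112R3.FM

universe u

theorem r5 : R5.{u} := by
  intro G _ _ A H K L hA hH hK hL
  have hHfin : (H : Set G).Finite := Set.toFinite _
  set Hf : Finset G := hHfin.toFinset with hHf
  have hHc : (Hf : Set G) = (H : Set G) := hHfin.coe_toFinset
  have hA0 : (0 : ℝ) < A.card := by exact_mod_cast hA.card_pos
  -- translation to finite sets
  have e1 : ((A : Set G) + (H : Set G)).ncard = (A + Hf).card := by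
    rw [← Set.ncard_coe_finset (A + Hf), Finset.coe_add, hHc]
  have e2 : ((A : Set G) + (A : Set G) + (H : Set G)).ncard = (A + A + Hf).card := by
    rw [← Set.ncard_coe_finset (A + A + Hf), Finset.coe_add, Finset.coe_add, hHc]
  rw [e1] at hL
  rw [e2]
  -- the minimal piece
  have hAmem : A ∈ A.powerset.erase ∅ :=
    Finset.mem_erase_of_ne_of_mem hA.ne_empty (Finset.mem_powerset_self _)
  obtain ⟨X, hX, hmin⟩ := Finset.exists_min_image (A.powerset.erase ∅)
    (fun U => (((U + A).card : ℕ) : ℝ) / U.card) ⟨A, hAmem⟩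
  rw [Finset.mem_erase, Finset.mem_powerset, ← Finset.nonempty_iff_ne_empty] at hX
  obtain ⟨hXne, hXA⟩ := hX
  have hX0 : (0 : ℝ) < X.card := by exact_mod_cast hXne.card_pos
  have hKX : (((X + A).card : ℕ) : ℝ) / X.card ≤ K := by
    refine (hmin A hAmem).trans ?_
    rw [div_le_iff₀ hA0]
    exact hK
  have hpet : ∀ C : Finset G, (((C + X + A).card : ℕ) : ℝ) ≤ K * (((C + X).card : ℕ) : ℝ) := by
    intro C
    have h1 : ∀ U ⊆ X, (X + A).card * U.card ≤ (U + A).card * X.card := by
      intro U hU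
      rcases U.eq_empty_or_nonempty with rfl | hUne
      · simp
      have hU0 : (0 : ℝ) < U.card := by exact_mod_cast hUne.card_pos
      have h2 := hmin U (Finset.mem_erase_of_ne_of_mem hUne.ne_empty
        (Finset.mem_powerset.2 (hU.trans hXA)))
      have h3 : (((X + A).card : ℕ) : ℝ) / X.card ≤ (((U + A).card : ℕ) : ℝ) / U.card := h2
      rw [div_le_div_iff₀ hX0 hU0] at h3
      exact_mod_cast h3
    have h4 := Finset.pluennecke_petridis_inequality_add C h1
    have h5 : (((C + X + A).card : ℕ) : ℝ) * X.card ≤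
        (((X + A).card : ℕ) : ℝ) * (((C + X).card : ℕ) : ℝ) := by exact_mod_cast h4
    have h6 : (((X + A).card : ℕ) : ℝ) ≤ K * X.card := by
      rwa [div_le_iff₀ hX0] at hKX
    have h7 : (0 : ℝ) ≤ (((C + X).card : ℕ) : ℝ) := Nat.cast_nonneg _
    have h8 := mul_le_mul_of_nonneg_right h6 h7
    have h9 : (((C + X + A).card : ℕ) : ℝ) * X.card ≤
        (K * (((C + X).card : ℕ) : ℝ)) * X.card := by
      refine h5.trans (h8.trans (le_of_eq ?_))
      ring
    exact le_of_mul_le_mul_right h9 hX0
  have hK0 : 0 ≤ K := le_trans (by positivity) hKX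
  have hs1 : (((Hf + X + A).card : ℕ) : ℝ) ≤ K * (L * A.card) := by
    refine (hpet Hf).trans (mul_le_mul_of_nonneg_left ?_ hK0)
    refine le_trans ?_ hL
    have h1 : Hf + X ⊆ A + Hf := by
      rw [add_comm A Hf]
      exact Finset.add_subset_add_left hXA
    exact_mod_cast Finset.card_le_card h1
  have hs2 : (((Hf + A + X + A).card : ℕ) : ℝ) ≤ K * (K * (L * A.card)) := by
    refine (hpet (Hf + A)).trans (mul_le_mul_of_nonneg_left ?_ hK0)
    have h1 : Hf + A + X = Hf + X + A := by
      rw [add_assoc, add_comm A X, ← add_assoc]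
    rw [h1]
    exact hs1
  have hs3 : (A + A + Hf).card ≤ (Hf + A + X + A).card := by
    have h1 : Hf + A + X + A = X + (A + A + Hf) := by
      rw [add_comm (Hf + A) X, add_assoc, add_assoc Hf A A, add_comm Hf (A + A)]
    rw [h1]
    exact Finset.card_le_card_add_left hXne
  have hs3' : (((A + A + Hf).card : ℕ) : ℝ) ≤ (((Hf + A + X + A).card : ℕ) : ℝ) := by
    exact_mod_cast hs3
  refine hs3'.trans (hs2.trans (le_of_eq ?_))
  ring

end Pool.Agent.H112R3.FM
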