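import Mathlib
import Pool.Agent.H112R3.FM.Defs

set_option autoImplicit false

open scoped Pointwise

namespace Pool.Agent.H112R3.FM

universe u

theorem R6aux.plu (B : Finset ℤ) (hB : B.Nonempty) :
    (B + B - (B + B)).card * B.card ^ 3 ≤ (B + B).card ^ 4 := by
  have h := Finset.pluennecke_ruzsa_inequality_nsmul_sub_nsmul_add hB B 2 2
  rw [two_nsmul] at h
  have hB0 : (B.card : ℚ≥0) ≠ 0 := by
    have := hB.card_pos
    exact_mod_cast this.ne'
  have h2 : ((B + B - (B + B)).card : ℚ≥0) * B.card ^ 3 ≤ ((B + B).card : ℚ≥0) ^ 4 := by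
    calc ((B + B - (B + B)).card : ℚ≥0) * B.card ^ 3
        ≤ (((B + B).card / B.card : ℚ≥0) ^ (2 + 2) * B.card) * B.card ^ 3 := by gcongr
      _ = ((B + B).card : ℚ≥0) ^ 4 := by
          rw [div_pow]
          field_simp
          ring
  exact_mod_cast h2

theorem r6 : R6.{u} := by
  classical
  intro G _ A H n hA hH hn
  have hHf : (H : Set G).Finite := Set.toFinite _
  set HF : Finset G := hHf.toFinset with hHF
  have hmem : ∀ x, x ∈ HF ↔ x ∈ H := by
    intro x
    rw [hHF, Set.Finite.mem_toFinset]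
    rfl
  have hcardH : HF.card = Nat.card H := by
    rw [hHF, ← Set.ncard_eq_toFinset_card _ hHf]
    rfl
  set B : Finset ℤ := A.image n with hB
  have hBne : B.Nonempty := hA.image n
  refine ⟨B + B - (B + B), ?_, ?_⟩
  · intro a ha b hb c hc d hd
    have h1 : ∀ x ∈ A, n x ∈ B := fun x hx => Finset.mem_image_of_mem n hx
    exact Finset.sub_mem_sub (Finset.add_mem_add (h1 a ha) (h1 b hb))
      (Finset.add_mem_add (h1 c hc) (h1 d hd))
  -- fibres
  have hA1 : A.card ≤ Nat.card H * B.card := by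
    refine Finset.card_le_mul_card_image A (Nat.card H) ?_
    intro y hy
    obtain ⟨b, hb, rfl⟩ := Finset.mem_image.mp hy
    rw [← hcardH]
    refine Finset.card_le_card_of_injOn (fun x => x - b) ?_ ?_
    · intro x hx
      rw [Finset.mem_coe, Finset.mem_filter] at hx
      rw [Finset.mem_coe, hmem]
      have h1 := (hn x hx.1 b hb b hb b hb).mp (by rw [hx.2])
      have h2 : x + b - (b + b) = x - b := by abel
      rwa [h2] at h1
    · intro x _ y _ hxy
      exact sub_left_injective hxy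
  -- sums
  have hex : ∀ y ∈ B + B, ∃ p : G × G, p.1 ∈ A ∧ p.2 ∈ A ∧ n p.1 + n p.2 = y := by
    intro y hy
    obtain ⟨u, hu, v, hv, rfl⟩ := Finset.mem_add.mp hy
    obtain ⟨a, ha, rfl⟩ := Finset.mem_image.mp hu
    obtain ⟨b, hb, rfl⟩ := Finset.mem_image.mp hv
    exact ⟨(a, b), ha, hb, rfl⟩
  choose! p hp1 hp2 hp3 using hex
  have hfin : ((A : Set G) + (A : Set G) + (H : Set G)).Finite :=
    (A.finite_toSet.add A.finite_toSet).add hHf
  have hsum : (B + B).card * Nat.card H ≤ ((A : Set G) + (A : Set G) + (H : Set G)).ncard := by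
    rw [← hcardH, ← Finset.card_product, Set.ncard_eq_toFinset_card _ hfin]
    refine Finset.card_le_card_of_injOn
      (fun z : ℤ × G => (p z.1).1 + (p z.1).2 + z.2) ?_ ?_
    · rintro ⟨y, h⟩ hz
      rw [Finset.mem_coe, Finset.mem_product] at hz
      rw [Finset.mem_coe, Set.Finite.mem_toFinset]
      exact Set.add_mem_add (Set.add_mem_add (hp1 y hz.1) (hp2 y hz.1)) ((hmem h).mp hz.2)
    · rintro ⟨y, h⟩ hz ⟨y', h'⟩ hz' heq
      rw [Finset.mem_coe, Finset.mem_product] at hz hz'
      simp only at hz hz' heq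
      have h1 : (p y).1 + (p y).2 - ((p y').1 + (p y').2) = h' - h := by
        rw [sub_eq_sub_iff_add_eq_add, heq]
        abel
      have h2 : n (p y).1 + n (p y).2 = n (p y').1 + n (p y').2 := by
        rw [hn _ (hp1 y hz.1) _ (hp2 y hz.1) _ (hp1 y' hz'.1) _ (hp2 y' hz'.1), h1]
        exact H.sub_mem ((hmem h').mp hz'.2) ((hmem h).mp hz.2)
      rw [hp3 y hz.1, hp3 y' hz'.1] at h2
      subst h2
      rw [add_right_inj] at heq
      rw [heq]
  have hplu := R6aux.plu B hBne
  have key : (B + B - (B + B)).card * Nat.card H * A.card ^ 3 ≤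
      ((A : Set G) + (A : Set G) + (H : Set G)).ncard ^ 4 := by
    calc (B + B - (B + B)).card * Nat.card H * A.card ^ 3
        ≤ (B + B - (B + B)).card * Nat.card H * (Nat.card H * B.card) ^ 3 := by gcongr
      _ = ((B + B - (B + B)).card * B.card ^ 3) * Nat.card H ^ 4 := by ring
      _ ≤ (B + B).card ^ 4 * Nat.card H ^ 4 := by gcongr
      _ = ((B + B).card * Nat.card H) ^ 4 := by ring
      _ ≤ _ := by gcongr
  exact_mod_cast key

end Pool.Agent.H112R3.FM
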