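import Mathlib
import Pool.Agent.H112R3.FM.Defs

set_option autoImplicit false

open scoped Pointwise

namespace Pool.Agent.H112R3.FM

universe u

namespace R7aux

/-- the combination of the generators -/
def sg {G : Type u} [AddCommGroup G] {k : ℕ} (s : Fin k → G) (v : Fin k → ℤ) : G :=
  ∑ i, v i • s i

theorem sg_add {G : Type u} [AddCommGroup G] {k : ℕ} (s : Fin k → G) (u v : Fin k → ℤ) :
    sg s (u + v) = sg s u + sg s v := by
  unfold sg
  rw [← Finset.sum_add_distrib]
  exact Finset.sum_congr rfl fun i _ => by rw [Pi.add_apply, add_zsmul]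

theorem num (k : ℕ) (K L τ a a1 a2 ap D h S : ℝ) (hK : 1 ≤ K) (hL : 1 ≤ L) (hτ : 1 ≤ τ)
    (ha2 : 0 < a2) (h1 : a ≤ τ * a1)
    (h2 : a1 ≤ 2 ^ k * a2) (h3 : a2 ≤ 2 * ap) (hS0 : 0 ≤ S) (hS : S ≤ K ^ 2 * L * a)
    (h6 : D * h * a2 ^ 3 ≤ S ^ 4) (hh' : h ≤ L * a) :
    (2 * D + 1) * h ≤ 3 * (K ^ 2 * L * τ) ^ 4 * 16 ^ (k + 1) * ap := by
  have hK2 : 1 ≤ K ^ 2 := one_le_pow₀ hK
  have hτ0 : 0 ≤ τ := by linarith
  have hL0 : 0 ≤ L := by linarith
  have hK0 : 0 ≤ K ^ 2 := by linarith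
  have hLτ : 1 ≤ L * τ := one_le_mul_of_one_le_of_one_le hL hτ
  have hLτ0 : 0 ≤ L * τ := by linarith
  set c := K ^ 2 * L * τ with hc
  have hcL : L * τ ≤ c := by
    rw [hc, mul_assoc]
    exact le_mul_of_one_le_left hLτ0 hK2
  have hc1 : 1 ≤ c := le_trans hLτ hcL
  have hc4 : c ≤ c ^ 4 := le_self_pow₀ hc1 (by norm_num)
  have haa : a ≤ τ * (2 ^ k * a2) := h1.trans (mul_le_mul_of_nonneg_left h2 hτ0)
  have hap : 0 ≤ ap := by linarith
  have h2k : (2 : ℝ) ^ k ≤ 16 ^ k := pow_le_pow_left₀ (by norm_num) (by norm_num) k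
  have h2k0 : (0 : ℝ) < 2 ^ k := by positivity
  have h16k0 : (0 : ℝ) < 16 ^ k := by positivity
  have hS' : S ≤ c * 2 ^ k * a2 := by
    calc S ≤ K ^ 2 * L * a := hS
      _ ≤ K ^ 2 * L * (τ * (2 ^ k * a2)) := mul_le_mul_of_nonneg_left haa (mul_nonneg hK0 hL0)
      _ = c * 2 ^ k * a2 := by rw [hc]; ring
  have h7 : S ^ 4 ≤ (c * 2 ^ k * a2) ^ 4 := pow_le_pow_left₀ hS0 hS' 4
  have h16 : ((2 : ℝ) ^ k) ^ 4 = 16 ^ k := by
    rw [← pow_mul, mul_comm, pow_mul]; norm_num
  have h8 : (c * 2 ^ k * a2) ^ 4 = c ^ 4 * 16 ^ k * a2 * a2 ^ 3 := by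
    rw [mul_pow, mul_pow, h16]; ring
  have h9 : D * h ≤ c ^ 4 * 16 ^ k * a2 := by
    refine le_of_mul_le_mul_right ?_ (pow_pos ha2 3)
    rw [← h8]
    exact h6.trans h7
  have hc40 : 0 ≤ c ^ 4 := by linarith
  have h10 : c ^ 4 * 16 ^ k * a2 ≤ c ^ 4 * 16 ^ k * (2 * ap) :=
    mul_le_mul_of_nonneg_left h3 (mul_nonneg hc40 h16k0.le)
  have h11 : h ≤ c ^ 4 * 16 ^ k * (2 * ap) := by
    calc h ≤ L * a := hh'
      _ ≤ L * (τ * (2 ^ k * a2)) := mul_le_mul_of_nonneg_left haa hL0
      _ = (L * τ) * 2 ^ k * a2 := by ring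
      _ ≤ c ^ 4 * 16 ^ k * a2 := by
          refine mul_le_mul_of_nonneg_right ?_ ha2.le
          exact mul_le_mul (hcL.trans hc4) h2k h2k0.le hc40
      _ ≤ _ := h10
  have h12 : 0 ≤ c ^ 4 * 16 ^ k * ap := mul_nonneg (mul_nonneg hc40 h16k0.le) hap
  calc (2 * D + 1) * h = 2 * (D * h) + h := by ring
    _ ≤ 2 * (c ^ 4 * 16 ^ k * (2 * ap)) + c ^ 4 * 16 ^ k * (2 * ap) := by linarith
    _ = 6 * (c ^ 4 * 16 ^ k * ap) := by ring
    _ ≤ 48 * (c ^ 4 * 16 ^ k * ap) := by linarith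
    _ = 3 * c ^ 4 * 16 ^ (k + 1) * ap := by rw [pow_succ]; ring

end R7aux

open R7aux in
theorem r7 (h2 : R2.{u}) (h3 : R3) (h4 : R4.{u}) (h5 : R5.{u}) (h6 : R6.{u}) : R7.{u} := by
  intro G _ _ A A₁ H k s x K L τ hA1 hH hsub hK hL hτ hx
  classical
  have hA : A.Nonempty := hA1.mono hsub
  obtain ⟨B, hB, hBc, w, hw1, hw2⟩ := h2 k G H s (A₁.image (fun a => a - x)) (by
    intro a ha
    obtain ⟨b, hb, rfl⟩ := Finset.mem_image.1 ha
    exact hx b hb)
  have hinj : Function.Injective (fun a : G => a - x) := fun a b h => by simpa using h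
  obtain ⟨A₂, hA2⟩ : ∃ A₂ : Finset G, A₂ = A₁.filter (fun a => a - x ∈ B) := ⟨_, rfl⟩
  have hA21 : A₂ ⊆ A₁ := by rw [hA2]; exact Finset.filter_subset _ _
  have hmem : ∀ a ∈ A₂, a - x ∈ B := by
    intro a ha
    rw [hA2] at ha
    exact (Finset.mem_filter.1 ha).2
  have hA2c : A₂.card = B.card := by
    have : A₂.image (fun a => a - x) = B := by
      ext b
      constructor
      · intro hb
        obtain ⟨a, ha, hab⟩ := Finset.mem_image.1 hb
        rw [← hab]
        exact hmem a ha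
      · intro hb
        obtain ⟨a, ha, hab⟩ := Finset.mem_image.1 (hB hb)
        refine Finset.mem_image.2 ⟨a, ?_, hab⟩
        rw [hA2]
        refine Finset.mem_filter.2 ⟨ha, ?_⟩
        have hab' : a - x = b := hab
        rw [hab']; exact hb
    rw [← this, Finset.card_image_of_injective _ hinj]
  have hc1 : A₁.card ≤ 2 ^ k * A₂.card := by
    rw [hA2c]
    rw [Finset.card_image_of_injective _ hinj] at hBc
    exact hBc
  have hA1pos : 0 < A₁.card := hA1.card_pos
  have hA2pos : 0 < A₂.card := by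
    rcases Nat.eq_zero_or_pos A₂.card with h | h
    · rw [h] at hc1; omega
    · exact h
  have hA2ne : A₂.Nonempty := Finset.card_pos.1 hA2pos
  obtain ⟨W, hW⟩ : ∃ W : G → (Fin k → ℤ), W = fun a => w (a - x) := ⟨_, rfl⟩
  obtain ⟨g, hg⟩ : ∃ g : G → G, g = fun a => (a - x) - sg s (W a) := ⟨_, rfl⟩
  have hgH : ∀ a ∈ A₂, g a ∈ H := by
    intro a ha
    rw [hg, hW]
    exact hw1 _ (hmem a ha)
  have hkey : ∀ a b c d : G, a + b - (c + d) = (g a + g b) - (g c + g d) +
      (sg s (W a + W b) - sg s (W c + W d)) := by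
    intro a b c d
    have hg' : ∀ a, g a = a - x - sg s (W a) := fun a => by rw [hg]
    rw [sg_add, sg_add, hg' a, hg' b, hg' c, hg' d]
    abel
  have hWs : ∀ a ∈ A₂, ∀ b ∈ A₂, ∀ c ∈ A₂, ∀ d ∈ A₂,
      (W a + W b = W c + W d ↔ a + b - (c + d) ∈ H) := by
    intro a ha b hb c hc d hd
    constructor
    · intro h
      rw [hkey, h, sub_self, add_zero]
      exact H.sub_mem (H.add_mem (hgH a ha) (hgH b hb)) (H.add_mem (hgH c hc) (hgH d hd))
    · intro h
      rw [hW]
      refine hw2 _ (hmem a ha) _ (hmem b hb) _ (hmem c hc) _ (hmem d hd) ?_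
      have : a - x + (b - x) - (c - x + (d - x)) = a + b - (c + d) := by abel
      rw [this]
      exact h
  obtain ⟨c₀, hc₀⟩ := h3 k ((A₂ ×ˢ A₂ ×ˢ A₂ ×ˢ A₂).image
    (fun q => W q.1 + W q.2.1 - (W q.2.2.1 + W q.2.2.2)))
  obtain ⟨n, hn⟩ : ∃ n : G → ℤ, n = fun a => ∑ i, c₀ i * W a i := ⟨_, rfl⟩
  have hnd : ∀ a b c d : G, n a + n b - (n c + n d) =
      ∑ i, c₀ i * (W a + W b - (W c + W d)) i := by
    intro a b c d
    rw [hn]
    simp only [Pi.add_apply, Pi.sub_apply, mul_add, mul_sub, Finset.sum_add_distrib,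
      Finset.sum_sub_distrib]
  have hnW : ∀ a ∈ A₂, ∀ b ∈ A₂, ∀ c ∈ A₂, ∀ d ∈ A₂,
      (n a + n b = n c + n d ↔ W a + W b = W c + W d) := by
    intro a ha b hb c hc d hd
    constructor
    · intro h
      by_contra hne
      refine hc₀ (W a + W b - (W c + W d)) (Finset.mem_image.2 ⟨(a, b, c, d), ?_, rfl⟩)
        (sub_ne_zero.2 hne) ?_
      · simp only [Finset.mem_product]
        exact ⟨ha, hb, hc, hd⟩
      · rw [← hnd, h, sub_self]
    · intro h
      have := hnd a b c d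
      rw [h, sub_self] at this
      simp only [Pi.zero_apply, mul_zero, Finset.sum_const_zero] at this
      exact sub_eq_zero.1 this
  have hnH : ∀ a ∈ A₂, ∀ b ∈ A₂, ∀ c ∈ A₂, ∀ d ∈ A₂,
      (n a + n b = n c + n d ↔ a + b - (c + d) ∈ H) := fun a ha b hb c hc d hd =>
    (hnW a ha b hb c hc d hd).trans (hWs a ha b hb c hc d hd)
  obtain ⟨D, hD1, hD2⟩ := h6 G A₂ H n hA2ne hH hnH
  obtain ⟨A', hA', hA'c, θ, hθ⟩ := h4 G A₂ n D
    (fun a ha b hb c hc d hd _ => hD1 a ha b hb c hc d hd)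
  have h5' := h5 G A H K L hA hH hK hL
  refine ⟨A', hA'.trans hA21, ?_, 2 * D.card + 1,
    fun a => (if h : g a ∈ H then ⟨g a, h⟩ else 0, θ (n a)), by omega, ?_, ?_⟩
  · calc A₁.card ≤ 2 ^ k * A₂.card := hc1
      _ ≤ 2 ^ k * (2 * A'.card) := Nat.mul_le_mul_left _ hA'c
      _ = 2 ^ (k + 1) * A'.card := by rw [pow_succ]; ring
  · have hApos : (0 : ℝ) < A.card := by exact_mod_cast hA.card_pos
    have hfinH : (H : Set G).Finite := Set.toFinite _
    have hK1 : 1 ≤ K := by
      have h : A.card ≤ (A + A).card := Finset.card_le_card_add_right hA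
      have h' : (A.card : ℝ) ≤ K * A.card := le_trans (by exact_mod_cast h) hK
      by_contra hc
      push Not at hc
      nlinarith
    have hAHfin : ((A : Set G) + (H : Set G)).Finite := (Finset.finite_toSet A).add hfinH
    have hL1 : 1 ≤ L := by
      have h : A.card ≤ ((A : Set G) + (H : Set G)).ncard := by
        rw [← Set.ncard_coe_finset A]
        refine Set.ncard_le_ncard ?_ hAHfin
        intro a ha
        exact ⟨a, ha, 0, H.zero_mem, add_zero a⟩
      have h' : (A.card : ℝ) ≤ L * A.card := le_trans (by exact_mod_cast h) hL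
      by_contra hc
      push Not at hc
      nlinarith
    have hτ1 : 1 ≤ τ := by
      have h : (A₁.card : ℝ) ≤ A.card := by exact_mod_cast Finset.card_le_card hsub
      have h0 : (0 : ℝ) < A₁.card := by exact_mod_cast hA1pos
      by_contra hc
      push Not at hc
      nlinarith
    have hHle : (Nat.card H : ℝ) ≤ L * A.card := by
      refine le_trans ?_ hL
      have : Nat.card H ≤ ((A : Set G) + (H : Set G)).ncard := by
        obtain ⟨a, ha⟩ := hA
        have e1 : Nat.card H = ((fun h => a + h) '' (H : Set G)).ncard := by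
          rw [Set.ncard_image_of_injective _ (add_right_injective a)]
          rfl
        rw [e1]
        refine Set.ncard_le_ncard ?_ hAHfin
        rintro y ⟨h, hh, rfl⟩
        exact ⟨a, ha, h, hh, rfl⟩
      exact_mod_cast this
    have hAAfin : ((A : Set G) + (A : Set G) + (H : Set G)).Finite :=
      ((Finset.finite_toSet A).add (Finset.finite_toSet A)).add hfinH
    have hA2A : (A₂ : Set G) ⊆ (A : Set G) := by
      intro a ha
      exact hsub (hA21 ha)
    have hS : (((A₂ : Set G) + (A₂ : Set G) + (H : Set G)).ncard : ℝ) ≤ K ^ 2 * L * A.card := by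
      refine le_trans ?_ h5'
      have := Set.ncard_le_ncard (Set.add_subset_add (Set.add_subset_add hA2A hA2A)
        (subset_refl (H : Set G))) hAAfin
      exact_mod_cast this
    have := num k K L τ A.card A₁.card A₂.card A'.card D.card (Nat.card H)
      (((A₂ : Set G) + (A₂ : Set G) + (H : Set G)).ncard) hK1 hL1 hτ1
      (by exact_mod_cast hA2pos) hτ (by exact_mod_cast hc1) (by exact_mod_cast hA'c)
      (Nat.cast_nonneg _) hS hD2 hHle
    refine le_trans (le_of_eq ?_) this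
    push_cast
    ring
  · have hiff : ∀ a ∈ A', ∀ b ∈ A', ∀ c ∈ A', ∀ d ∈ A',
        (((if h : g a ∈ H then (⟨g a, h⟩ : H) else 0, θ (n a)) : H × ZMod (2 * D.card + 1)) +
          (if h : g b ∈ H then (⟨g b, h⟩ : H) else 0, θ (n b)) =
          (if h : g c ∈ H then (⟨g c, h⟩ : H) else 0, θ (n c)) +
          (if h : g d ∈ H then (⟨g d, h⟩ : H) else 0, θ (n d)) ↔ a + b = c + d) := by
      intro a ha b hb c hc d hd
      have ha' := hA' ha
      have hb' := hA' hb
      have hc' := hA' hc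
      have hd' := hA' hd
      rw [dif_pos (hgH a ha'), dif_pos (hgH b hb'), dif_pos (hgH c hc'), dif_pos (hgH d hd')]
      rw [Prod.ext_iff]
      simp only [Prod.fst_add, Prod.snd_add]
      rw [hθ a ha b hb c hc d hd, hnW a ha' b hb' c hc' d hd', Subtype.ext_iff]
      simp only [AddSubgroup.coe_add]
      constructor
      · rintro ⟨h1, h2⟩
        have := hkey a b c d
        rw [h1, h2, sub_self, sub_self, add_zero] at this
        exact sub_eq_zero.1 this
      · intro h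
        have h0 : a + b - (c + d) ∈ H := by rw [h, sub_self]; exact H.zero_mem
        have h2 := (hWs a ha' b hb' c hc' d hd').2 h0
        refine ⟨?_, h2⟩
        have := hkey a b c d
        rw [h2, h, sub_self, sub_self, add_zero] at this
        exact (sub_eq_zero.1 this.symm)
    rw [isAddFreimanIso_two]
    refine ⟨?_, ?_⟩
    · refine Set.InjOn.bijOn_image ?_
      intro a ha b hb hab
      have := (hiff a ha b hb b hb b hb).1 (by
        have hab' : ((if h : g a ∈ H then (⟨g a, h⟩ : H) else 0, θ (n a)) :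
          H × ZMod (2 * D.card + 1)) = (if h : g b ∈ H then (⟨g b, h⟩ : H) else 0, θ (n b)) := hab
        rw [hab'])
      exact add_right_cancel this
    · intro a ha b hb c hc d hd
      exact hiff a ha b hb c hc d hd

end Pool.Agent.H112R3.FM
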