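import Mathlib
import Pool.Agent.H112R3.FM.Defs

set_option autoImplicit false

open scoped Pointwise

namespace Pool.Agent.H112R3.FM

universe u

theorem r8 : R8.{u} := by
  intro G _ _ A A₁ H K τ hne hH hsub hK hτ hAH
  have hHf : (H : Set G).Finite := Set.toFinite _
  obtain ⟨Hf, hHf'⟩ : ∃ Hf : Finset G, (Hf : Set G) = (H : Set G) := ⟨hHf.toFinset, by simp⟩
  rw [← hHf', ← Finset.coe_add, Set.ncard_coe_finset] at hAH ⊢
  have hpos : (0 : ℝ) < A₁.card := by exact_mod_cast hne.card_pos
  have hApos : (0 : ℝ) < A.card := lt_of_lt_of_le hpos (by exact_mod_cast Finset.card_le_card hsub)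
  have htri : (A + Hf).card * A₁.card ≤ (A + A₁).card * (A₁ + Hf).card :=
    Finset.ruzsa_triangle_inequality_add_add_add A A₁ Hf
  have htri' : ((A + Hf).card : ℝ) * A₁.card ≤ (A + A₁).card * (A₁ + Hf).card := by
    exact_mod_cast htri
  have h1 : ((A + A₁).card : ℝ) ≤ K * A.card :=
    le_trans (by exact_mod_cast Finset.card_le_card (Finset.add_subset_add_left hsub)) hK
  have hKA : 0 ≤ K * (A.card : ℝ) := le_trans (Nat.cast_nonneg _) hK
  have hK0 : 0 ≤ K := by
    by_contra h
    push Not at h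
    nlinarith
  have h2 : ((A + Hf).card : ℝ) * A₁.card ≤ (K * τ * A.card) * A₁.card := by
    calc ((A + Hf).card : ℝ) * A₁.card ≤ (A + A₁).card * (A₁ + Hf).card := htri'
      _ ≤ (K * A.card) * A.card := by gcongr
      _ ≤ (K * A.card) * (τ * A₁.card) := by gcongr
      _ = _ := by ring
  exact le_of_mul_le_mul_right h2 hpos

end Pool.Agent.H112R3.FM
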