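import Mathlib
import Pool.Agent.H112R3.FM.Defs
import Pool.Agent.Results.MP_dd2a7c_co.NearPFR

set_option autoImplicit false

open scoped Pointwise

namespace Pool.Agent.H112R3.FM

universe u

namespace R9_

theorem fin_pts {d : ℕ} {B : Set (Fin d → ℝ)} (hB : IsCompact B) :
    {x : Fin d → ℤ | (fun i => (x i : ℝ)) ∈ B}.Finite := by
  obtain ⟨R, hR⟩ := hB.isBounded.exists_norm_le
  refine (Set.finite_Icc (fun _ : Fin d => -⌈R⌉) (fun _ => ⌈R⌉)).subset ?_
  intro x hx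
  have h1 := hR _ hx
  have h4 : (R : ℝ) ≤ ⌈R⌉ := Int.le_ceil R
  have h2 : ∀ i, |(x i : ℝ)| ≤ R := fun i => by
    have h := (norm_le_pi_norm (fun i => (x i : ℝ)) i).trans h1
    rwa [Real.norm_eq_abs] at h
  rw [Set.mem_Icc]
  constructor
  · intro i
    have h3 := (abs_le.1 (h2 i)).1
    have h5 : ((-⌈R⌉ : ℤ) : ℝ) ≤ (x i : ℝ) := by push_cast; linarith
    exact_mod_cast h5
  · intro i
    have h3 := (abs_le.1 (h2 i)).2
    have h5 : (x i : ℝ) ≤ (⌈R⌉ : ℤ) := by linarith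
    exact_mod_cast h5

theorem psi_mem {G : Type u} [AddCommGroup G] {d : ℕ} (ψ : (Fin d → ℤ) →+ G) (x : Fin d → ℤ) :
    ψ x ∈ AddSubgroup.closure (Set.range fun i : Fin d => ψ (Pi.single i 1)) := by
  have h1 : x = ∑ i, x i • (Pi.single i (1 : ℤ) : Fin d → ℤ) := by
    funext j
    rw [Finset.sum_apply, Finset.sum_eq_single j]
    · simp
    · intro b _ hb
      simp [Pi.single_apply, Ne.symm hb]
    · intro h
      exact absurd (Finset.mem_univ j) h
  rw [h1, map_sum]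
  refine AddSubgroup.sum_mem _ fun i _ => ?_
  rw [map_zsmul]
  have h2 : ψ (Pi.single i 1) ∈
      AddSubgroup.closure (Set.range fun i : Fin d => ψ (Pi.single i 1)) :=
    AddSubgroup.subset_closure (Set.mem_range_self i)
  exact AddSubgroup.zsmul_mem _ h2 _

theorem two_pow_le {X : ℝ} (hX : 2 ≤ X) {d : ℕ} (hd : (d : ℝ) ≤ 300 * Real.log X) :
    (2 : ℝ) ^ d ≤ X ^ (208 : ℝ) := by
  have hX0 : 0 < X := by linarith
  rw [← Real.rpow_natCast, Real.rpow_def_of_pos two_pos, Real.rpow_def_of_pos hX0]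
  apply Real.exp_le_exp.2
  have h1 := Real.log_two_lt_d9
  have h2 : 0 < Real.log 2 := Real.log_pos (by norm_num)
  have h3 : 0 < Real.log X := Real.log_pos (by linarith)
  have h4 : Real.log 2 * d ≤ Real.log 2 * (300 * Real.log X) :=
    mul_le_mul_of_nonneg_left hd h2.le
  have h5 : Real.log 2 * (300 * Real.log X) ≤ 0.6931471808 * (300 * Real.log X) :=
    mul_le_mul_of_nonneg_right h1.le (by positivity)
  have h6 : 0.6931471808 * (300 * Real.log X) ≤ Real.log X * 208 := by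
    nlinarith
  linarith

end R9_

open R9_ in
theorem r9 (h7 : R7.{u}) (h8 : R8.{u}) : R9.{u} := by
  classical
  intro G _ _ A K hA hK
  obtain ⟨d, B, ψ, H, T, hd, -, hBk, -, -, hH, hvol, hT, hcov⟩ :=
    Pool.Agent.Results.MP_dd2a7c_co.NearPFR.result K A hA hK
  have hA0 : (0 : ℝ) < A.card := by exact_mod_cast hA.card_pos
  have hK1 : 1 ≤ K := by
    have h1 : (A.card : ℝ) ≤ (A + A).card := by
      exact_mod_cast Finset.card_le_card_add_left hA
    have h2 : 1 * (A.card : ℝ) ≤ K * A.card := by linarith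
    exact le_of_mul_le_mul_right h2 hA0
  have hTn : T.Nonempty := by
    obtain ⟨a, ha⟩ := hA
    obtain ⟨t, ht, _⟩ := hcov a ha
    exact ⟨t, ht⟩
  -- pigeonhole
  obtain ⟨F, hF⟩ : ∃ F : G → Finset G, F = fun t => A.filter fun a =>
      ∃ x : Fin d → ℤ, (fun i => (x i : ℝ)) ∈ B ∧ ∃ h ∈ H, a = t + ψ x + h := ⟨_, rfl⟩
  have hsum : A.card ≤ ∑ t ∈ T, (F t).card := by
    refine le_trans (Finset.card_le_card ?_) Finset.card_biUnion_le
    intro a ha
    obtain ⟨t, ht, h⟩ := hcov a ha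
    rw [Finset.mem_biUnion]
    refine ⟨t, ht, ?_⟩
    rw [hF, Finset.mem_filter]
    exact ⟨ha, h⟩
  obtain ⟨t, htT, ht⟩ : ∃ t ∈ T, A.card ≤ T.card * (F t).card := by
    apply Finset.exists_le_of_sum_le hTn
    rw [Finset.sum_const, smul_eq_mul, ← Finset.mul_sum]
    exact Nat.mul_le_mul_left _ hsum
  obtain ⟨A₁, hA₁⟩ : ∃ A₁ : Finset G, A₁ = F t := ⟨_, rfl⟩
  rw [← hA₁] at ht
  have hA₁n : A₁.Nonempty := by
    rw [← Finset.card_pos]
    by_contra h
    have h0 : A₁.card = 0 := by omega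
    rw [h0, mul_zero] at ht
    have := hA.card_pos
    omega
  have hmem : ∀ a ∈ A₁, a ∈ A ∧ ∃ x : Fin d → ℤ, (fun i => (x i : ℝ)) ∈ B ∧ ∃ h ∈ H,
      a = t + ψ x + h := by
    intro a ha
    rw [hA₁, hF] at ha
    exact Finset.mem_filter.1 ha
  have hsub : A₁ ⊆ A := fun a ha => (hmem a ha).1
  have hτ : (A.card : ℝ) ≤ (T.card : ℝ) * A₁.card := by exact_mod_cast ht
  have hτ1 : (1 : ℝ) ≤ T.card := by exact_mod_cast hTn.card_pos
  have hA₁H : (((A₁ : Set G) + (H : Set G)).ncard : ℝ) ≤ A.card := by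
    have hS := fin_pts hBk
    have hHf : (H : Set G).Finite := Set.toFinite _
    have h1 : ((A₁ : Set G) + (H : Set G)) ⊆ (fun q : (Fin d → ℤ) × G => t + ψ q.1 + q.2) ''
        ({x : Fin d → ℤ | (fun i => (x i : ℝ)) ∈ B} ×ˢ (H : Set G)) := by
      rintro _ ⟨a, ha, h', hh', rfl⟩
      obtain ⟨_, x, hx, h, hh, hax⟩ := hmem a (Finset.mem_coe.1 ha)
      refine ⟨(x, h + h'), ⟨hx, H.add_mem hh hh'⟩, ?_⟩
      show t + ψ x + (h + h') = a + h'
      rw [hax]
      abel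
    have h2 := Set.ncard_le_ncard h1 ((hS.prod hHf).image _)
    have h3 := Set.ncard_image_le (f := fun q : (Fin d → ℤ) × G => t + ψ q.1 + q.2)
      (hS.prod hHf)
    rw [Set.ncard_prod] at h3
    have h4 : Nat.card H = (H : Set G).ncard := Nat.card_coe_set_eq (H : Set G)
    rw [h4] at hvol
    exact_mod_cast h2.trans (h3.trans hvol)
  have hL := h8 G A A₁ H K T.card hA₁n hH hsub hK hτ hA₁H
  obtain ⟨A', hA'sub, hA'card, N, f, hN, hNH, hiso⟩ := h7 G A A₁ H d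
    (fun i => ψ (Pi.single i 1)) t K (K * T.card) T.card hA₁n hH hsub hK hL hτ (by
      intro a ha
      obtain ⟨_, x, _, h, hh, hax⟩ := hmem a ha
      rw [AddSubgroup.mem_sup]
      refine ⟨h, hh, ψ x, psi_mem ψ x, ?_⟩
      rw [hax]
      abel)
  -- numbers
  obtain ⟨X, hX⟩ : ∃ X : ℝ, X = 2 * K := ⟨_, rfl⟩
  rw [← hX] at hd hT ⊢
  have hX2 : 2 ≤ X := by linarith
  have hX0 : 0 < X := by linarith
  have hX1 : 1 ≤ X := by linarith
  obtain ⟨e, he⟩ : ∃ e : ℝ, e = 1 + Real.log (1 + Real.log X) := ⟨_, rfl⟩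
  rw [← he] at hT ⊢
  have he1 : 1 ≤ e := by
    have h1 : 0 ≤ Real.log X := Real.log_nonneg hX1
    have h2 : 0 ≤ Real.log (1 + Real.log X) := Real.log_nonneg (by linarith)
    linarith
  have h2d := two_pow_le hX2 hd
  have hA'0 : (0 : ℝ) ≤ A'.card := Nat.cast_nonneg _
  have b1 : (T.card : ℝ) * 2 ^ (d + 1) ≤ X ^ (200000 * e) := by
    calc (T.card : ℝ) * 2 ^ (d + 1) = T.card * (2 * 2 ^ d) := by ring
      _ ≤ X ^ (13000 * e) * (X * X ^ (208 : ℝ)) := by gcongr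
      _ = X ^ (13000 * e + (1 + 208)) := by
          rw [Real.rpow_add hX0, Real.rpow_add hX0, Real.rpow_one]
      _ ≤ X ^ (200000 * e) := Real.rpow_le_rpow_of_exponent_le hX1 (by linarith)
  have b2 : 3 * (K ^ 2 * (K * T.card) * T.card) ^ 4 * 16 ^ (d + 1) ≤ X ^ (200000 * e) := by
    have h16 : (16 : ℝ) ^ (d + 1) = 16 * (2 ^ d) ^ 4 := by
      rw [pow_succ, ← pow_mul, mul_comm d 4, pow_mul]
      norm_num
      ring
    have hK2 : K ≤ X := by linarith
    have hK0 : 0 ≤ K := by linarith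
    have h48 : (48 : ℝ) ≤ X ^ 6 := by
      have := pow_le_pow_left₀ (by norm_num : (0 : ℝ) ≤ 2) hX2 6
      linarith
    calc 3 * (K ^ 2 * (K * T.card) * T.card) ^ 4 * 16 ^ (d + 1)
        = 48 * K ^ 12 * (T.card : ℝ) ^ 8 * (2 ^ d) ^ 4 := by rw [h16]; ring
      _ ≤ X ^ 6 * X ^ 12 * (X ^ (13000 * e)) ^ 8 * (X ^ (208 : ℝ)) ^ 4 := by gcongr
      _ = X ^ (6 + 12 + 13000 * e * 8 + 208 * 4) := by
          rw [Real.rpow_add hX0, Real.rpow_add hX0, Real.rpow_add hX0]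
          rw [Real.rpow_mul hX0.le (13000 * e) 8, Real.rpow_mul hX0.le 208 4]
          norm_cast
      _ ≤ X ^ (200000 * e) := Real.rpow_le_rpow_of_exponent_le hX1 (by linarith)
  refine ⟨A', hA'sub.trans hsub, ?_, ?_⟩
  · have h1 : (A₁.card : ℝ) ≤ 2 ^ (d + 1) * A'.card := by exact_mod_cast hA'card
    calc (A.card : ℝ) ≤ T.card * A₁.card := hτ
      _ ≤ T.card * (2 ^ (d + 1) * A'.card) := by gcongr
      _ = (T.card * 2 ^ (d + 1)) * A'.card := by ring
      _ ≤ X ^ (200000 * e) * A'.card := mul_le_mul_of_nonneg_right b1 hA'0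
  · haveI : NeZero N := ⟨by omega⟩
    haveI : Finite H := hH
    letI : Fintype H := Fintype.ofFinite H
    refine ⟨H × ZMod N, inferInstance, inferInstance, ?_, f '' (A' : Set G), f, hiso⟩
    rw [Fintype.card_prod, ZMod.card, Nat.cast_mul, ← Nat.card_eq_fintype_card, mul_comm]
    exact hNH.trans (mul_le_mul_of_nonneg_right b2 hA'0)

end Pool.Agent.H112R3.FM
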